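import Pool.Agent.Helper93.KP.St

/-!
# Project KP, module FNA: from the weighted sum to products of two primes, powers of two
-/

set_option autoImplicit false

noncomputable section

namespace Pool.Agent.Helper88.KP

open Finset Filter Topology
open Pool.Agent.Helper93.KP
open Pool.Agent.Helper9.TW (iv bx Rg cc Dec WF bm ms ind UpP LoP gm Ax GUp GLo Qs fm ej Pr)

private theorem box_FNA {a p j0 : ℕ} {ω : ℝ} : ∀ k : ℕ, j0 ≤ k →
    (a : ℝ) ^ ((j0 : ℝ) * ω) ≤ (p : ℝ) → (p : ℝ) < (a : ℝ) ^ ((k : ℝ) * ω) →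
    ∃ i, j0 ≤ i ∧ i < k ∧ (a : ℝ) ^ ((i : ℝ) * ω) ≤ (p : ℝ) ∧
      (p : ℝ) < (a : ℝ) ^ (((i : ℝ) + 1) * ω) := by
  intro k hk h0
  induction k, hk using Nat.le_induction with
  | base => intro h; exact absurd h (not_lt.2 h0)
  | succ k hk ih =>
    intro h
    by_cases h1 : (p : ℝ) < (a : ℝ) ^ ((k : ℝ) * ω)
    · obtain ⟨i, h2, h3, h4⟩ := ih h1
      exact ⟨i, h2, by omega, h4⟩
    · refine ⟨k, hk, by omega, not_lt.1 h1, ?_⟩
      push_cast at h
      exact h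

/-- the conditions on `a` -/
private def Big (a : ℕ) (κ₀ ε c : ℝ) : Prop :=
  60 ≤ a ∧ Real.log a ^ 3 ≤ c * (a : ℝ) ^ (κ₀ / 2) ∧ 30 ≤ (a : ℝ) ^ ε ∧
    120 ≤ (a : ℝ) ^ (1 / 20000 : ℝ)

private theorem ev_big {κ₀ ε c : ℝ} (hκ : 0 < κ₀) (hε : 0 < ε) (hc : 0 < c) :
    ∀ᶠ a : ℕ in atTop, Big a κ₀ ε c := by
  have h1 : ∀ᶠ a : ℕ in atTop, 60 ≤ a := eventually_ge_atTop 60
  have hcast : Tendsto (fun a : ℕ => (a : ℝ)) atTop atTop := tendsto_natCast_atTop_atTop
  have h2 : ∀ᶠ x : ℝ in atTop, ‖Real.log x ^ (3 : ℝ)‖ ≤ c * ‖x ^ (κ₀ / 2)‖ :=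
    (isLittleO_log_rpow_rpow_atTop (3 : ℝ) (by positivity : 0 < κ₀ / 2)).bound hc
  have h3 : ∀ᶠ x : ℝ in atTop, 30 ≤ x ^ ε := (tendsto_rpow_atTop hε).eventually_ge_atTop 30
  have h4 : ∀ᶠ x : ℝ in atTop, 120 ≤ x ^ (1 / 20000 : ℝ) :=
    (tendsto_rpow_atTop (by norm_num : (0 : ℝ) < 1 / 20000)).eventually_ge_atTop 120
  filter_upwards [h1, hcast.eventually h2, hcast.eventually h3, hcast.eventually h4]
    with a e1 e2 e3 e4
  refine ⟨e1, ?_, e3, e4⟩
  have ha : (1 : ℝ) ≤ a := by exact_mod_cast (by omega : 1 ≤ a)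
  have hl : 0 ≤ Real.log a := Real.log_nonneg ha
  have e5 : Real.log (a : ℝ) ^ (3 : ℝ) = Real.log a ^ 3 := by
    rw [← Real.rpow_natCast]
    norm_num
  rw [e5, Real.norm_of_nonneg (by positivity), Real.norm_of_nonneg (by positivity)] at e2
  exact e2

private theorem vk_succ {n k : ℕ} (hk : 1 ≤ k) (h : k < n) : vk n k + 1 = k * (n - k) := by
  unfold vk
  have h1 : 1 ≤ k * (n - k) := Nat.mul_pos hk (by omega)
  omega

/-- (FNA). -/
theorem hFNA (h10 : StC10P) (hPT : StPTP) : StFNA := by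
  classical
  intro ε hε
  obtain ⟨κ₀, hκp, hκε, hκ1⟩ : ∃ κ₀ : ℝ, 0 < κ₀ ∧ κ₀ ≤ ε ∧ κ₀ ≤ 1 / 10000000 :=
    ⟨min ε (1 / 10000000), lt_min hε (by norm_num), min_le_left _ _, min_le_right _ _⟩
  obtain ⟨u, j0, hu, hj0, hj0u, κ, c, hκ, hc, a₀, hC⟩ := h10 κ₀ hκp hκ1
  have hur : (0 : ℝ) < u := by exact_mod_cast (by omega : 0 < u)
  obtain ⟨ω, hω⟩ : ∃ ω : ℝ, ω = 1 / (20000 * (u : ℝ)) := ⟨_, rfl⟩
  rw [← hω] at hC
  have hωp : 0 < ω := by rw [hω]; positivity
  obtain ⟨θ, hθ⟩ : ∃ θ : ℝ, θ = (j0 : ℝ) * ω := ⟨_, rfl⟩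
  rw [← hθ] at hC
  have hpow : Tendsto (fun s : ℕ => 2 ^ s) atTop atTop :=
    tendsto_pow_atTop_atTop_of_one_lt (by norm_num)
  obtain ⟨s₀, hs₀⟩ := eventually_atTop.1
    (hpow.eventually ((ev_big hκp hε hc).and (eventually_ge_atTop a₀)))
  refine ⟨min κ (κ₀ / 8), lt_min hκ (by positivity), s₀, ?_⟩
  intro s hs
  obtain ⟨⟨ha60, hlog3, h30, h120⟩, haa⟩ := hs₀ s hs
  have ha2s : ∀ p : ℕ, p.Prime → p ∣ 2 ^ s → p = 2 := fun p hp hd =>
    (Nat.prime_dvd_prime_iff_eq hp Nat.prime_two).1 (hp.dvd_of_dvd_pow hd)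
  have hcastS : ((2 : ℝ) ^ s) = ((2 ^ s : ℕ) : ℝ) := by push_cast; rfl
  rw [hcastS]
  generalize (2 ^ s : ℕ) = a at *
  have har : (60 : ℝ) ≤ a := by exact_mod_cast ha60
  have ha1 : (1 : ℝ) < a := by linarith
  have ha1' : (1 : ℝ) ≤ a := by linarith
  have ha0 : (0 : ℝ) < a := by linarith
  have hlogp : 0 < Real.log a := Real.log_pos ha1
  obtain ⟨E, hE, hS⟩ := hC a haa
  refine ⟨E, hE.trans (Real.rpow_le_rpow_of_exponent_le ha1' ?_), ?_⟩
  · have := min_le_left κ (κ₀ / 8)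
    linarith
  intro n hn hnE
  have hS' := hS n hn hnE
  unfold NN at hn
  rw [Finset.mem_Ioc] at hn
  obtain ⟨hn1, hn2⟩ := hn
  have hn1r : (a : ℝ) ^ 2 < n := by exact_mod_cast hn1
  have hn2r : (n : ℝ) ≤ 4 * (a : ℝ) ^ 2 := by exact_mod_cast hn2
  set f : ℕ → ℝ := fun j => qk a θ n (30 * j) * ind a ω j0 (5499 * u) (vk n (30 * j)) *
      (1 - ∑ i ∈ Ico (5499 * u) (19679 * u), 10340 / 10000 * (1 - (i : ℝ) / (19679 * u)) *
        (ej a ω i (vk n (30 * j)) : ℝ)) with hf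
  set S : Finset ℕ := (Jn ((a : ℝ) ^ θ) ⌊(a : ℝ) ^ κ₀⌋₊ n).filter (fun j => 0 < f j) with hSdef
  have hsumnn : ∀ j : ℕ, 0 ≤ ∑ i ∈ Ico (5499 * u) (19679 * u),
      10340 / 10000 * (1 - (i : ℝ) / (19679 * u)) * (ej a ω i (vk n (30 * j)) : ℝ) := by
    intro j
    apply Finset.sum_nonneg
    intro i hi
    rw [Finset.mem_Ico] at hi
    have : (i : ℝ) ≤ 19679 * u := by exact_mod_cast hi.2.le
    have h2 : 0 ≤ 1 - (i : ℝ) / (19679 * u) := by
      rw [sub_nonneg, div_le_one (by positivity)]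
      exact this
    positivity
  have hf1 : ∀ j, f j ≤ 1 := by
    intro j
    have h2 := hsumnn j
    simp only [hf]
    unfold qk ind
    split_ifs <;> simp <;> linarith
  have hcount : ∑ j ∈ Jn ((a : ℝ) ^ θ) ⌊(a : ℝ) ^ κ₀⌋₊ n, f j ≤ (S.card : ℝ) := by
    calc ∑ j ∈ Jn ((a : ℝ) ^ θ) ⌊(a : ℝ) ^ κ₀⌋₊ n, f j
        ≤ ∑ j ∈ Jn ((a : ℝ) ^ θ) ⌊(a : ℝ) ^ κ₀⌋₊ n, (if 0 < f j then (1 : ℝ) else 0) := by
          apply Finset.sum_le_sum
          intro j _
          split_ifs with h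
          · exact hf1 j
          · exact not_lt.1 h
      _ = (S.card : ℝ) := by
          rw [← Finset.sum_filter, Finset.sum_const, nsmul_eq_mul, mul_one]
  have hκa : (a : ℝ) ^ κ₀ ≤ a := by
    calc (a : ℝ) ^ κ₀ ≤ (a : ℝ) ^ (1 : ℝ) :=
          Real.rpow_le_rpow_of_exponent_le ha1' (by linarith)
      _ = a := Real.rpow_one _
  -- properties of the members
  have hmem : ∀ j ∈ S, 30 * j ∈ ks ε n := by
    intro j hj
    rw [hSdef, Finset.mem_filter] at hj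
    obtain ⟨hJ, hpos⟩ := hj
    unfold Jn at hJ
    rw [Finset.mem_filter, Finset.mem_Icc] at hJ
    obtain ⟨⟨hj1, hjK⟩, hsq⟩ := hJ
    have hjr : (j : ℝ) ≤ (a : ℝ) ^ κ₀ :=
      (Nat.cast_le.2 hjK).trans (Nat.floor_le (by positivity))
    have hk1 : 1 ≤ 30 * j := by omega
    have h60 : 60 * j < n := by
      have h1 : (60 : ℝ) * j < n := by
        calc (60 : ℝ) * j ≤ a * a := by
              apply mul_le_mul har (hjr.trans hκa) (by positivity) (by positivity)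
          _ = (a : ℝ) ^ 2 := by ring
          _ < n := hn1r
      exact_mod_cast h1
    have hkn : 30 * j < n := by omega
    have hvs := vk_succ hk1 hkn
    have hq : qk a θ n (30 * j) = 1 := by
      by_contra hcon
      have : qk a θ n (30 * j) = 0 := by
        unfold qk at hcon ⊢
        split_ifs at hcon ⊢ with h
        · exact absurd rfl hcon
        · rfl
      simp only [hf, this, zero_mul, lt_irrefl] at hpos
    have hi : ind a ω j0 (5499 * u) (vk n (30 * j)) = 1 := by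
      by_contra hcon
      have : ind a ω j0 (5499 * u) (vk n (30 * j)) = 0 := by
        unfold ind at hcon ⊢
        split_ifs at hcon ⊢ with h
        · rfl
        · exact absurd rfl hcon
      simp only [hf, this, mul_zero, zero_mul, lt_irrefl] at hpos
    have hs' : 10340 / 10000 * ∑ i ∈ Ico (5499 * u) (19679 * u), (1 - (i : ℝ) / (19679 * u)) *
        (ej a (1 / (20000 * u)) i (vk n (30 * j)) : ℝ) < 1 := by
      simp only [hf, hq, hi, one_mul, sub_pos] at hpos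
      rw [Finset.mul_sum, ← hω]
      convert hpos using 2
      ring
    have hq' : ∀ p ∈ Qs a θ, ¬ (p : ℤ) ∣ gk n (30 * j) := by
      by_contra hcon
      unfold qk at hq
      rw [if_neg hcon] at hq
      norm_num at hq
    have hi' : ¬ ∃ p ∈ Pr a ω j0 (5499 * u), p ∣ vk n (30 * j) := by
      intro hcon
      unfold ind at hi
      rw [if_pos hcon] at hi
      norm_num at hi
    have h30p : ∀ p : ℕ, p.Prime → p ∣ vk n (30 * j) → ¬ p ∣ 30 := by
      intro p hp hd hd30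
      have h1 : p ∣ vk n (30 * j) + 1 := by
        rw [hvs]
        exact Dvd.dvd.mul_right (Dvd.dvd.mul_right hd30 _) _
      have h2 : p ∣ 1 := (Nat.dvd_add_right hd).1 h1
      exact hp.one_lt.ne' (Nat.dvd_one.1 h2)
    have hpa : ∀ p : ℕ, p.Prime → p ∣ vk n (30 * j) → ¬ p ∣ a := by
      intro p hp hd hda
      have h2 := ha2s p hp hda
      subst h2
      exact h30p 2 hp hd (by norm_num)
    have hbig : ∀ p : ℕ, p.Prime → p ∣ vk n (30 * j) → (a : ℝ) ^ θ ≤ (p : ℝ) := by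
      intro p hp hd
      by_contra hcon
      push Not at hcon
      by_cases h7 : 7 ≤ p
      · apply hq' p _ ((dvd_vk n (30 * j) p hk1 hkn).1 hd)
        unfold Qs
        rw [Finset.mem_filter, Finset.mem_Icc]
        exact ⟨⟨h7, Nat.le_floor hcon.le⟩, hp, hcon⟩
      · have h6 : p < 7 := by omega
        have h30' := h30p p hp hd
        interval_cases p
        · exact absurd hp (by norm_num)
        · exact absurd hp (by norm_num)
        · exact h30' (by norm_num)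
        · exact h30' (by norm_num)
        · exact absurd hp (by norm_num)
        · exact h30' (by norm_num)
        · exact absurd hp (by norm_num)
    have hvr : ((vk n (30 * j) : ℕ) : ℝ) ≤ (a : ℝ) ^ (2 + 1 / 10000 : ℝ) := by
      have h1 : vk n (30 * j) ≤ 30 * j * n := by
        have : 30 * j * (n - 30 * j) ≤ 30 * j * n := Nat.mul_le_mul_left _ (Nat.sub_le _ _)
        omega
      have h2 : ((vk n (30 * j) : ℕ) : ℝ) ≤ 30 * j * n := by exact_mod_cast h1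
      have h3 : (a : ℝ) ^ κ₀ ≤ (a : ℝ) ^ (1 / 20000 : ℝ) :=
        Real.rpow_le_rpow_of_exponent_le ha1' (by linarith)
      calc ((vk n (30 * j) : ℕ) : ℝ) ≤ 30 * j * n := h2
        _ ≤ 30 * (a : ℝ) ^ (1 / 20000 : ℝ) * (4 * (a : ℝ) ^ 2) := by
            apply mul_le_mul _ hn2r (by positivity) (by positivity)
            exact mul_le_mul_of_nonneg_left (hjr.trans h3) (by norm_num)
        _ = 120 * ((a : ℝ) ^ (1 / 20000 : ℝ) * (a : ℝ) ^ 2) := by ring
        _ ≤ (a : ℝ) ^ (1 / 20000 : ℝ) * ((a : ℝ) ^ (1 / 20000 : ℝ) * (a : ℝ) ^ 2) :=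
            mul_le_mul_of_nonneg_right h120 (by positivity)
        _ = (a : ℝ) ^ (2 + 1 / 10000 : ℝ) := by
            rw [← Real.rpow_natCast (a : ℝ) 2, ← Real.rpow_add ha0, ← Real.rpow_add ha0]
            norm_num
    have hv1 : 1 ≤ vk n (30 * j) := by
      have h1 : 30 * j * 1 ≤ 30 * j * (n - 30 * j) := Nat.mul_le_mul_left _ (by omega)
      omega
    have hPTb := hPT u a (vk n (30 * j)) hu (by omega) hv1 hvr (by
      intro p hp hd
      refine ⟨hpa p hp hd, ?_⟩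
      rw [← hω]
      by_contra hcon
      push Not at hcon
      have hb1 := hbig p hp hd
      rw [hθ] at hb1
      obtain ⟨i, hi1, hi2, hi3, hi4⟩ := box_FNA (a := a) (p := p) (j0 := j0) (ω := ω) (5499 * u)
        hj0u hb1 hcon
      apply hi'
      refine ⟨p, ?_, hd⟩
      simp only [Pr, Finset.mem_biUnion, Finset.mem_Ico]
      refine ⟨i, ⟨hi1, hi2⟩, ?_⟩
      unfold bx
      rw [Finset.mem_filter, Finset.mem_range, Nat.lt_ceil]
      exact ⟨hi4, hp, hi3, hpa p hp hd⟩) (by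
      intro p hp hd
      have hd' : p ∣ vk n (30 * j) := (dvd_pow_self p (by norm_num)).trans hd
      exact hsq p hp (hbig p hp hd') hd) hs'
    have hkε : ((30 * j : ℕ) : ℝ) ≤ (n : ℝ) ^ ε := by
      have h1 : (a : ℝ) ^ κ₀ ≤ (a : ℝ) ^ ε := Real.rpow_le_rpow_of_exponent_le ha1' hκε
      calc ((30 * j : ℕ) : ℝ) = 30 * (j : ℝ) := by push_cast; ring
        _ ≤ (a : ℝ) ^ ε * (a : ℝ) ^ ε :=
            mul_le_mul h30 (hjr.trans h1) (by positivity) (by positivity)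
        _ = ((a : ℝ) ^ 2) ^ ε := by
            rw [← Real.mul_rpow ha0.le ha0.le]
            congr 1
            ring
        _ ≤ (n : ℝ) ^ ε := Real.rpow_le_rpow (by positivity) hn1r.le hε.le
    unfold ks
    rw [Finset.mem_filter, Finset.mem_Icc]
    exact ⟨⟨hk1, by omega⟩, hkε, hPTb⟩
  have hcard : S.card ≤ (ks ε n).card := by
    apply Finset.card_le_card_of_injOn (fun j => 30 * j)
    · intro j hj
      exact hmem j hj
    · intro j _ j' _ he
      simp only at he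
      omega
  have hcard' : (S.card : ℝ) ≤ ((ks ε n).card : ℝ) := by exact_mod_cast hcard
  have hlow : (n : ℝ) ^ (min κ (κ₀ / 8)) ≤ c * (a : ℝ) ^ κ₀ / Real.log a ^ 3 := by
    have hn1' : (1 : ℝ) ≤ n := by
      have : (1 : ℝ) ≤ (a : ℝ) ^ 2 := one_le_pow₀ ha1'
      linarith
    have h4 : (n : ℝ) ≤ (a : ℝ) ^ (4 : ℝ) := by
      have e1 : (a : ℝ) ^ (4 : ℝ) = (a : ℝ) ^ 2 * (a : ℝ) ^ 2 := by
        rw [← Real.rpow_natCast (a : ℝ) 2, ← Real.rpow_add ha0]
        norm_num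
      rw [e1]
      refine hn2r.trans (mul_le_mul_of_nonneg_right ?_ (by positivity))
      nlinarith
    calc (n : ℝ) ^ (min κ (κ₀ / 8)) ≤ (n : ℝ) ^ (κ₀ / 8) :=
          Real.rpow_le_rpow_of_exponent_le hn1' (min_le_right _ _)
      _ ≤ ((a : ℝ) ^ (4 : ℝ)) ^ (κ₀ / 8) := Real.rpow_le_rpow (by positivity) h4 (by positivity)
      _ = (a : ℝ) ^ (κ₀ / 2) := by
          rw [← Real.rpow_mul ha0.le]
          congr 1
          ring
      _ ≤ c * (a : ℝ) ^ κ₀ / Real.log a ^ 3 := by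
          rw [le_div_iff₀ (by positivity)]
          calc (a : ℝ) ^ (κ₀ / 2) * Real.log a ^ 3 ≤ (a : ℝ) ^ (κ₀ / 2) * (c * (a : ℝ) ^ (κ₀ / 2)) :=
                mul_le_mul_of_nonneg_left hlog3 (by positivity)
            _ = c * ((a : ℝ) ^ (κ₀ / 2) * (a : ℝ) ^ (κ₀ / 2)) := by ring
            _ = c * (a : ℝ) ^ κ₀ := by
                rw [← Real.rpow_add ha0]
                congr 2
                ring
  exact hlow.trans (hS'.trans (hcount.trans hcard'))

end Pool.Agent.Helper88.KP
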